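import Pool.Agent.K4W.StmtsU

set_option autoImplicit false

/-! Row UGB of the squad K4W (helper91): tails of Gaussian sums. -/

namespace Pool.Agent.K4W.H91

open Pool.Agent.Helper69_Weyl (ee W)

theorem ugb (uga : UgaStmt) : UgbStmt := by
  intro N d θ R hN hd hR
  obtain ⟨hs, hle⟩ := uga (2 * N) d θ (by omega) hd
  have hNpos : (0 : ℝ) < (N : ℝ) := by exact_mod_cast hN
  have hN2 : (0 : ℝ) < (N : ℝ) ^ 2 := by positivity
  have key : ∀ x : ℝ, R ≤ |x| →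
      ga N x ≤ Real.exp (-(Real.pi * R ^ 2 / (2 * (N : ℝ) ^ 2))) * ga (2 * N) x := by
    intro x hx
    unfold ga
    rw [← Real.exp_add]
    apply Real.exp_le_exp.2
    have h1 : R ^ 2 ≤ x ^ 2 := by
      rw [← sq_abs x]
      exact pow_le_pow_left₀ hR hx 2
    have hx2 : 0 ≤ x ^ 2 := sq_nonneg x
    have hpi := Real.pi_pos
    push_cast
    rw [← neg_add, neg_le_neg_iff, div_add_div _ _ (by positivity) (by positivity),
      div_le_div_iff₀ (by positivity) hN2]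
    have e1 : Real.pi * x ^ 2 * (2 * (N : ℝ) ^ 2 * (2 * (N : ℝ)) ^ 2) -
        (Real.pi * R ^ 2 * (2 * (N : ℝ)) ^ 2 + 2 * (N : ℝ) ^ 2 * (Real.pi * x ^ 2)) * (N : ℝ) ^ 2 =
        Real.pi * (N : ℝ) ^ 4 * (4 * (x ^ 2 - R ^ 2) + 2 * x ^ 2) := by ring
    have e2 : 0 ≤ Real.pi * (N : ℝ) ^ 4 * (4 * (x ^ 2 - R ^ 2) + 2 * x ^ 2) := by
      apply mul_nonneg (by positivity)
      linarith
    linarith
  have hpt : ∀ s : ℤ, (if R ≤ |(d : ℝ) * (s : ℝ) + θ| then ga N ((d : ℝ) * (s : ℝ) + θ) else 0) ≤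
      Real.exp (-(Real.pi * R ^ 2 / (2 * (N : ℝ) ^ 2))) * ga (2 * N) ((d : ℝ) * (s : ℝ) + θ) := by
    intro s
    split_ifs with h
    · exact key _ h
    · exact mul_nonneg (Real.exp_pos _).le (Real.exp_pos _).le
  have hs2 : Summable fun s : ℤ => Real.exp (-(Real.pi * R ^ 2 / (2 * (N : ℝ) ^ 2))) *
      ga (2 * N) ((d : ℝ) * (s : ℝ) + θ) := hs.mul_left _
  have hs3 : Summable fun s : ℤ =>
      if R ≤ |(d : ℝ) * (s : ℝ) + θ| then ga N ((d : ℝ) * (s : ℝ) + θ) else 0 := by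
    refine Summable.of_nonneg_of_le (fun s => ?_) hpt hs2
    split_ifs
    · exact (Real.exp_pos _).le
    · exact le_rfl
  refine ⟨hs3, (hs3.tsum_le_tsum hpt hs2).trans ?_⟩
  rw [tsum_mul_left]
  calc Real.exp (-(Real.pi * R ^ 2 / (2 * (N : ℝ) ^ 2))) *
        ∑' s : ℤ, ga (2 * N) ((d : ℝ) * (s : ℝ) + θ)
      ≤ Real.exp (-(Real.pi * R ^ 2 / (2 * (N : ℝ) ^ 2))) * (200 * ((2 * N : ℕ) : ℝ)) :=
        mul_le_mul_of_nonneg_left hle (Real.exp_pos _).le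
    _ = 400 * (N : ℝ) * Real.exp (-(Real.pi * R ^ 2 / (2 * (N : ℝ) ^ 2))) := by
        push_cast
        ring

end Pool.Agent.K4W.H91
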